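import Pool.Agent.W528.HB.Stm
import Pool.Agent.W528.HA.Est

/-! HB-SA: products of Gauss sums. -/

set_option autoImplicit false

namespace Pool.Agent.W135.HB.SA

open Finset Pool.Agent.W528.HA

theorem main : Pool.Agent.W528.HB.SA := by
  intro c _ L _ _ _ χ φ ψ hψ
  classical
  have hψ1 : ψ ≠ 1 := by
    rintro rfl
    have h := hψ (a := 1) one_ne_zero
    apply h
    ext x
    simp
  have h1 : ‖gaussSum (1 : MulChar L (PadicAlgCl c)) ψ‖ = 1 := by
    rw [gaussSum_one_left hψ1, norm_neg, norm_one]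
  by_cases hχφ : χ * φ = 1
  · rw [hχφ, h1]
    by_cases hχ : χ = 1
    · have hφ : φ = 1 := by rw [hχ, one_mul] at hχφ; exact hχφ
      rw [hχ, hφ, h1, one_mul]
    · have hφ : φ = χ⁻¹ := eq_inv_of_mul_eq_one_right hχφ
      have h3 := congrArg norm (gaussSum_mul_gaussSum_eq_card hχ hψ)
      have h4 := congrArg norm (mul_gaussSum_inv_eq_gaussSum χ⁻¹ ψ)
      have h5 : ‖χ⁻¹ (-1)‖ = 1 := by
        have e : χ⁻¹ (-1) * χ⁻¹ (-1) = 1 := by
          rw [← map_mul, neg_mul_neg, one_mul, map_one]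
        have e2 := congrArg norm e
        rw [norm_mul, norm_one] at e2
        nlinarith [norm_nonneg (χ⁻¹ (-1))]
      rw [norm_mul, h5, one_mul] at h4
      rw [norm_mul, h4] at h3
      rw [hφ, h3]
      exact norm_natCast_le _
  · have h3 := congrArg norm (jacobiSum_mul_nontrivial hχφ ψ)
    rw [norm_mul, norm_mul] at h3
    rw [← h3]
    refine mul_le_of_le_one_right (norm_nonneg _) ?_
    unfold jacobiSum
    refine norm_sum_le_one _ _ fun x _ => ?_
    rw [norm_mul]
    exact mul_le_one₀ (mulChar_norm_le χ x) (norm_nonneg _) (mulChar_norm_le φ _)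

end Pool.Agent.W135.HB.SA
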